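import Pool.Agent.W2helper26.TR.Stm

/-!
Piece W (weight and limit argument) of the counterexample to MP_27fa52_an.
-/

set_option autoImplicit false

namespace Pool.Agent.W2helper10.TR

open MeasureTheory Set Filter Topology
open Pool.Agent.W2helper26.TR

/-! ### The weight -/

/-- `s` is the price of a cover of `t`. -/
def Rep (L : ℕ → ℕ) (A : ℕ → ℝ) (t s : ℝ) : Prop :=
  ∃ (K : ℕ) (n : ℕ → ℕ) (r : ℝ), 0 ≤ r ∧ t ≤ ∑ j ∈ Finset.range K, (n j : ℝ) * L j + r ∧
    s = ∑ j ∈ Finset.range K, (n j : ℝ) * A j + r / 2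

/-- The logarithm of the weight. -/
noncomputable def pw (L : ℕ → ℕ) (A : ℕ → ℝ) (t : ℝ) : ℝ := sInf {s | Rep L A t s}

section weight

variable {L : ℕ → ℕ} {A : ℕ → ℝ}

lemma rep_nonneg (hA : ∀ j, 0 ≤ A j) {t s : ℝ} (h : Rep L A t s) : 0 ≤ s := by
  obtain ⟨K, n, r, hr, -, rfl⟩ := h
  have : 0 ≤ ∑ j ∈ Finset.range K, (n j : ℝ) * A j :=
    Finset.sum_nonneg fun j _ => mul_nonneg (Nat.cast_nonneg _) (hA j)
  linarith

lemma rep_half {t : ℝ} (h : 0 ≤ t) : Rep L A t (t / 2) :=
  ⟨0, fun _ => 0, t, h, by simp, by simp⟩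

lemma rep_zero {t : ℝ} (h : t ≤ 0) : Rep L A t 0 :=
  ⟨0, fun _ => 0, 0, le_rfl, by simpa using h, by simp⟩

lemma rep_ne (t : ℝ) : {s | Rep L A t s}.Nonempty := by
  rcases le_total t 0 with h | h
  · exact ⟨0, rep_zero h⟩
  · exact ⟨_, rep_half h⟩

lemma rep_bdd (hA : ∀ j, 0 ≤ A j) (t : ℝ) : BddBelow {s | Rep L A t s} :=
  ⟨0, fun _ hs => rep_nonneg hA hs⟩

lemma sum_ext {K M : ℕ} (h : K ≤ M) (n : ℕ → ℕ) (a : ℕ → ℝ) :
    ∑ j ∈ Finset.range M, (((if j < K then n j else 0 : ℕ)) : ℝ) * a j =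
      ∑ j ∈ Finset.range K, (n j : ℝ) * a j := by
  rw [← Finset.sum_subset (Finset.range_mono h)]
  · apply Finset.sum_congr rfl
    intro j hj
    rw [if_pos (Finset.mem_range.1 hj)]
  · intro j _ hj
    rw [if_neg (by simpa using hj)]
    simp

lemma rep_add {t s t' s' : ℝ} (h : Rep L A t s) (h' : Rep L A t' s') :
    Rep L A (t + t') (s + s') := by
  obtain ⟨K, n, r, hr, ht, rfl⟩ := h
  obtain ⟨K', n', r', hr', ht', rfl⟩ := h'
  have key : ∀ a : ℕ → ℝ, ∑ j ∈ Finset.range (max K K'),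
      (((if j < K then n j else 0) + (if j < K' then n' j else 0) : ℕ) : ℝ) * a j =
      ∑ j ∈ Finset.range K, (n j : ℝ) * a j + ∑ j ∈ Finset.range K', (n' j : ℝ) * a j := by
    intro a
    rw [← sum_ext (le_max_left K K') n a, ← sum_ext (le_max_right K K') n' a,
      ← Finset.sum_add_distrib]
    apply Finset.sum_congr rfl
    intro j _
    rw [Nat.cast_add, add_mul]
  refine ⟨max K K', fun j => (if j < K then n j else 0) + (if j < K' then n' j else 0), r + r',
    by linarith, ?_, ?_⟩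
  · rw [key]; linarith
  · rw [key]; ring

lemma rep_single (k N : ℕ) {t r : ℝ} (hr : 0 ≤ r) (ht : t ≤ N * L k + r) :
    Rep L A t (N * A k + r / 2) := by
  have key : ∀ a : ℕ → ℝ, ∑ j ∈ Finset.range (k + 1),
      (((if j = k then N else 0 : ℕ)) : ℝ) * a j = N * a k := by
    intro a
    rw [Finset.sum_eq_single k]
    · simp
    · intro j _ hj; simp [hj]
    · intro h; simp at h
  exact ⟨k + 1, fun j => if j = k then N else 0, r, hr, by rw [key]; exact ht, by rw [key]⟩

lemma pw_le (hA : ∀ j, 0 ≤ A j) {t s : ℝ} (h : Rep L A t s) : pw L A t ≤ s :=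
  csInf_le (rep_bdd hA t) h

lemma pw_nonneg (hA : ∀ j, 0 ≤ A j) (t : ℝ) : 0 ≤ pw L A t :=
  le_csInf (rep_ne t) fun _ hs => rep_nonneg hA hs

lemma pw_mono (hA : ∀ j, 0 ≤ A j) : Monotone (pw L A) := by
  intro t t' h
  refine le_csInf (rep_ne t') ?_
  rintro s ⟨K, n, r, hr, ht, hs⟩
  exact pw_le hA ⟨K, n, r, hr, h.trans ht, hs⟩

lemma pw_zero (hA : ∀ j, 0 ≤ A j) {t : ℝ} (h : t ≤ 0) : pw L A t = 0 :=
  le_antisymm (pw_le hA (rep_zero h)) (pw_nonneg hA t)

lemma pw_add (hA : ∀ j, 0 ≤ A j) (t τ : ℝ) : pw L A (t + τ) ≤ pw L A t + pw L A τ := by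
  have h1 : ∀ s', Rep L A τ s' → pw L A (t + τ) - s' ≤ pw L A t := by
    intro s' hs'
    refine le_csInf (rep_ne t) ?_
    intro s hs
    have := pw_le hA (rep_add hs hs')
    linarith
  have h2 : pw L A (t + τ) - pw L A t ≤ pw L A τ := by
    refine le_csInf (rep_ne τ) ?_
    intro s' hs'
    have := h1 s' hs'
    linarith
  linarith

lemma pw_lin (hL : ∀ k, 1 ≤ L k) (hA : ∀ j, 0 ≤ A j) (k : ℕ) {t : ℝ} (ht : 0 < t) :
    pw L A t ≤ (t / L k + 1) * A k := by
  have hLk : (0:ℝ) < L k := by exact_mod_cast (hL k)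
  have h1 : t ≤ (⌈t / L k⌉₊ : ℝ) * L k + 0 := by
    have := Nat.le_ceil (t / L k)
    rw [div_le_iff₀ hLk] at this
    linarith
  have h2 := pw_le hA (rep_single (A := A) k ⌈t / L k⌉₊ le_rfl h1)
  have h3 : (⌈t / L k⌉₊ : ℝ) ≤ t / L k + 1 := (Nat.ceil_lt_add_one (by positivity)).le
  have h4 : (⌈t / L k⌉₊ : ℝ) * A k ≤ (t / L k + 1) * A k :=
    mul_le_mul_of_nonneg_right h3 (hA k)
  linarith

lemma pw_tendsto (hL : ∀ k, 1 ≤ L k) (hA : ∀ j, 0 ≤ A j)
    (h : Tendsto (fun k => A k / L k) atTop (𝓝 0)) :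
    Tendsto (fun t => pw L A t / t) atTop (𝓝 0) := by
  rw [Metric.tendsto_atTop]
  intro ε hε
  obtain ⟨k, hk⟩ := ((tendsto_order.1 h).2 (ε / 2) (by linarith)).exists
  have hLk : (0:ℝ) < L k := by exact_mod_cast (hL k)
  refine ⟨2 * A k / ε + 1, fun t ht => ?_⟩
  have hAk := hA k
  have h0 : 0 ≤ 2 * A k / ε := by positivity
  have ht0 : 0 < t := by linarith
  have h1 := pw_lin hL hA k ht0
  have h2 : A k / t < ε / 2 := by
    rw [div_lt_iff₀ ht0]
    have : 2 * A k / ε < t := by linarith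
    rw [div_lt_iff₀ hε] at this
    linarith
  have h3 : pw L A t / t ≤ A k / L k + A k / t := by
    rw [div_le_iff₀ ht0]
    have e : (A k / L k + A k / t) * t = (t / L k + 1) * A k := by
      field_simp
    rw [e]; exact h1
  rw [Real.dist_eq, sub_zero, abs_of_nonneg (div_nonneg (pw_nonneg hA t) ht0.le)]
  linarith

/-- The weight. -/
noncomputable def wt (L : ℕ → ℕ) (A : ℕ → ℝ) (t : ℝ) : ℝ := Real.exp (pw L A t)

lemma wt_isWeight (hL : ∀ k, 1 ≤ L k) (hA : ∀ j, 0 ≤ A j)
    (h : Tendsto (fun k => A k / L k) atTop (𝓝 0)) : IsWeight (wt L A) := by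
  refine ⟨(pw_mono hA).measurable.exp, fun t => Real.one_le_exp (pw_nonneg hA t), fun t τ => ?_,
    ?_, ?_⟩
  · unfold wt
    rw [← Real.exp_add]
    exact Real.exp_le_exp.2 (pw_add hA t τ)
  · simp only [wt, Real.log_exp]
    exact pw_tendsto hL hA h
  · refine Tendsto.congr' ?_ tendsto_const_nhds
    filter_upwards [eventually_le_atBot (0:ℝ)] with t ht
    simp [wt, pw_zero hA ht]

end weight

/-! ### The bumps -/

lemma bump_nonneg (j L : ℕ) (X t : ℝ) : 0 ≤ bump j L X t := by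
  unfold bump
  split_ifs
  · positivity
  · exact le_rfl

lemma bump_le (j L : ℕ) {X : ℝ} (hX : 0 ≤ X) (t : ℝ) : bump j L X t ≤ (1 / 2) ^ (j + 2) := by
  unfold bump
  split_ifs with h
  · have h1 : Real.exp (-(X * (t - L))) ≤ 1 := by
      apply Real.exp_le_one_iff.2
      have := mul_nonneg hX (sub_nonneg.2 h.le)
      linarith
    calc (1 / 2 : ℝ) ^ (j + 2) * Real.exp (-(X * (t - L))) ≤ (1 / 2) ^ (j + 2) * 1 := by gcongr
      _ = _ := mul_one _
  · positivity

lemma bump_meas (j L : ℕ) (X : ℝ) : Measurable (bump j L X) := by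
  unfold bump
  exact Measurable.ite measurableSet_Ioi (by fun_prop) measurable_const

lemma bump_cint (j L : ℕ) (X : ℝ) (z : ℂ) (h : z.re < X) :
    IntegrableOn (fun t : ℝ => (bump j L X t : ℂ) * Complex.exp (z * t)) (Ioi 0) ∧
    ∫ t in Ioi (0:ℝ), (bump j L X t : ℂ) * Complex.exp (z * t) =
      (1 / 2 : ℂ) ^ (j + 2) * Complex.exp (z * L) / (X - z) := by
  have hz : (z - X).re < 0 := by simp; linarith
  have e : (fun t : ℝ => (bump j L X t : ℂ) * Complex.exp (z * t)) =
      (Ioi (L:ℝ)).indicator (fun t : ℝ => (1 / 2 : ℂ) ^ (j + 2) * Complex.exp (X * L) *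
        Complex.exp ((z - X) * t)) := by
    funext t
    by_cases ht : (L:ℝ) < t
    · rw [indicator_of_mem (by exact ht)]
      simp only [bump, if_pos ht]
      push_cast
      rw [mul_assoc, mul_assoc, ← Complex.exp_add, ← Complex.exp_add]
      congr 2
      ring
    · rw [indicator_of_notMem (by exact ht)]
      simp [bump, if_neg ht]
  have hs : Ioi (0:ℝ) ∩ Ioi (L:ℝ) = Ioi (L:ℝ) := by
    apply inter_eq_right.2
    exact Ioi_subset_Ioi (Nat.cast_nonneg L)
  constructor
  · rw [e]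
    exact ((integrable_indicator_iff measurableSet_Ioi).2
      (Integrable.const_mul (integrableOn_exp_mul_complex_Ioi hz L) _)).integrableOn
  · rw [e, setIntegral_indicator measurableSet_Ioi, hs, integral_const_mul,
      integral_exp_mul_complex_Ioi hz]
    have h0 : z - X ≠ 0 := by
      intro h0; rw [h0] at hz; simp at hz
    have h1 : (X:ℂ) - z ≠ 0 := by
      intro h1; apply h0; rw [← neg_sub, h1, neg_zero]
    have h2 : Complex.exp (X * L) * Complex.exp ((z - X) * (L:ℝ)) = Complex.exp (z * L) := by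
      rw [← Complex.exp_add]
      congr 1
      push_cast
      ring
    rw [← h2]
    field_simp
    ring

lemma bump_rint (j L : ℕ) (X c : ℝ) (h : c < X) :
    IntegrableOn (fun t : ℝ => bump j L X t * Real.exp (c * t)) (Ioi 0) ∧
    ∫ t in Ioi (0:ℝ), bump j L X t * Real.exp (c * t) =
      (1 / 2 : ℝ) ^ (j + 2) * Real.exp (c * L) / (X - c) := by
  have hz : c - X < 0 := by linarith
  have e : (fun t : ℝ => bump j L X t * Real.exp (c * t)) =
      (Ioi (L:ℝ)).indicator (fun t : ℝ => (1 / 2 : ℝ) ^ (j + 2) * Real.exp (X * L) *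
        Real.exp ((c - X) * t)) := by
    funext t
    by_cases ht : (L:ℝ) < t
    · rw [indicator_of_mem (by exact ht)]
      simp only [bump, if_pos ht]
      rw [mul_assoc, mul_assoc, ← Real.exp_add, ← Real.exp_add]
      congr 2
      ring
    · rw [indicator_of_notMem (by exact ht)]
      simp [bump, if_neg ht]
  have hs : Ioi (0:ℝ) ∩ Ioi (L:ℝ) = Ioi (L:ℝ) := by
    apply inter_eq_right.2
    exact Ioi_subset_Ioi (Nat.cast_nonneg L)
  constructor
  · rw [e]
    exact ((integrable_indicator_iff measurableSet_Ioi).2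
      (Integrable.const_mul (integrableOn_exp_mul_Ioi hz L) _)).integrableOn
  · rw [e, setIntegral_indicator measurableSet_Ioi, hs, integral_const_mul,
      integral_exp_mul_Ioi hz]
    have h0 : c - X ≠ 0 := hz.ne
    have h1 : X - c ≠ 0 := by
      intro h1; apply h0; rw [← neg_sub, h1, neg_zero]
    have h2 : Real.exp (X * L) * Real.exp ((c - X) * (L:ℝ)) = Real.exp (c * L) := by
      rw [← Real.exp_add]
      congr 1
      ring
    rw [← h2]
    field_simp
    ring

/-- Integrability of a series of nonnegative functions. -/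
lemma integrable_tsum_nonneg {μ : Measure ℝ} {F : ℕ → ℝ → ℝ} (hF : ∀ i, Integrable (F i) μ)
    (h0 : ∀ i t, 0 ≤ F i t) (hm : ∀ i, Measurable (F i)) (hs : Summable fun i => ∫ t, F i t ∂μ)
    (hp : ∀ t, Summable fun i => F i t) : Integrable (fun t => ∑' i, F i t) μ := by
  refine ⟨?_, ?_⟩
  · apply Measurable.aestronglyMeasurable
    refine measurable_of_tendsto_metrizable (f := fun k t => ∑ i ∈ Finset.range k, F i t) ?_ ?_
    · intro k
      exact Finset.measurable_sum _ fun i _ => hm i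
    · rw [tendsto_pi_nhds]
      intro t
      exact (hp t).hasSum.tendsto_sum_nat
  · have h1 : ∫⁻ t, ‖∑' i, F i t‖ₑ ∂μ ≤ ∑' i, ∫⁻ t, ‖F i t‖ₑ ∂μ := by
      rw [← lintegral_tsum fun i => (hF i).1.enorm]
      exact lintegral_mono fun t => enorm_tsum_le_tsum_enorm
    refine lt_of_le_of_lt h1 ?_
    have h2 : ∀ i, ∫⁻ t, ‖F i t‖ₑ ∂μ = ENNReal.ofReal (∫ t, F i t ∂μ) := by
      intro i
      rw [ofReal_integral_eq_lintegral_ofReal (hF i) (Eventually.of_forall (h0 i))]
      apply lintegral_congr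
      intro t
      rw [Real.enorm_eq_ofReal (h0 i t)]
    simp_rw [h2]
    have h3 := ENNReal.ofReal_tsum_of_nonneg (fun i => integral_nonneg (h0 i)) hs
    rw [← h3]
    exact ENNReal.ofReal_lt_top


/-! ### The function `f` -/

section func

variable {L : ℕ → ℕ} {X : ℕ → ℝ}

/-- The real function on `(0, ∞)`. -/
noncomputable def FF (L : ℕ → ℕ) (X : ℕ → ℝ) (t : ℝ) : ℝ :=
  Real.exp (-t) + ∑' j, bump j (L j) (X j) t

/-- The function `f`. -/
noncomputable def fun1 (L : ℕ → ℕ) (X : ℕ → ℝ) (t : ℝ) : ℂ := if t < 0 then 0 else (FF L X t : ℂ)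

lemma hasSum_geo : HasSum (fun j : ℕ => (1 / 2 : ℝ) ^ (j + 2)) (1 / 2) := by
  have h := (hasSum_geometric_two).mul_left ((1 / 4 : ℝ))
  have e : (fun j : ℕ => (1 / 4 : ℝ) * (1 / 2) ^ j) = fun j : ℕ => (1 / 2 : ℝ) ^ (j + 2) := by
    funext j; rw [pow_add]; ring
  rw [e] at h
  have e2 : (1 / 4 : ℝ) * 2 = 1 / 2 := by norm_num
  rw [e2] at h
  exact h

lemma bump_summable (hX : ∀ k, 64 ≤ X k) (t : ℝ) : Summable fun j => bump j (L j) (X j) t :=
  Summable.of_nonneg_of_le (fun j => bump_nonneg j (L j) (X j) t)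
    (fun j => bump_le j (L j) (by linarith [hX j]) t) hasSum_geo.summable

lemma fpart_tendsto (hX : ∀ k, 64 ≤ X k) (t : ℝ) :
    Tendsto (fun k => fpart L X k t) atTop (𝓝 (FF L X t)) :=
  ((bump_summable hX t).hasSum.tendsto_sum_nat).const_add _

lemma fpart_nonneg (k : ℕ) (t : ℝ) : 0 ≤ fpart L X k t :=
  add_nonneg (Real.exp_pos _).le (Finset.sum_nonneg fun j _ => bump_nonneg j (L j) (X j) t)

lemma fpart_le (hX : ∀ k, 64 ≤ X k) (k : ℕ) (t : ℝ) : fpart L X k t ≤ FF L X t := by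
  unfold fpart FF
  gcongr
  exact (bump_summable hX t).sum_le_tsum _ fun j _ => bump_nonneg j (L j) (X j) t

lemma FF_nonneg (hX : ∀ k, 64 ≤ X k) (t : ℝ) : 0 ≤ FF L X t :=
  (fpart_nonneg 0 t).trans (fpart_le hX 0 t)

lemma fpart_meas (k : ℕ) : Measurable (fpart L X k) := by
  unfold fpart
  exact (by fun_prop : Measurable fun t : ℝ => Real.exp (-t)).add
    (Finset.measurable_sum _ fun j _ => bump_meas j (L j) (X j))

lemma FF_meas (hX : ∀ k, 64 ≤ X k) : Measurable (FF L X) := by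
  refine measurable_of_tendsto_metrizable (f := fun k => fpart L X k) fpart_meas ?_
  rw [tendsto_pi_nhds]
  exact fpart_tendsto hX

lemma fun1_meas (hX : ∀ k, 64 ≤ X k) : Measurable (fun1 L X) := by
  unfold fun1
  exact Measurable.ite measurableSet_Iio measurable_const
    (Complex.measurable_ofReal.comp (FF_meas hX))

lemma fun1_pos {t : ℝ} (ht : 0 < t) : fun1 L X t = (FF L X t : ℂ) := by
  unfold fun1
  rw [if_neg (not_lt.2 ht.le)]

lemma logX_nonneg (hX : ∀ k, 64 ≤ X k) (j : ℕ) : 0 ≤ Real.log (X j) :=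
  Real.log_nonneg (by linarith [hX j])

lemma bump_wt_le (hX : ∀ k, 64 ≤ X k) (j : ℕ) (t : ℝ) :
    bump j (L j) (X j) t * wt L (fun k => Real.log (X k)) t ≤
      X j * Real.exp (-(L j) / 2) * (bump j (L j) (X j) t * Real.exp ((1 / 2) * t)) := by
  by_cases ht : (L j : ℝ) < t
  · have hXj : 0 < X j := by linarith [hX j]
    have h1 : Rep L (fun k => Real.log (X k)) t ((1 : ℕ) * Real.log (X j) + (t - L j) / 2) :=
      rep_single (A := fun k => Real.log (X k)) j 1 (by linarith) (by push_cast; linarith)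
    have h2 := pw_le (logX_nonneg hX) h1
    have h3 : wt L (fun k => Real.log (X k)) t ≤
        X j * Real.exp (-(L j) / 2) * Real.exp ((1 / 2) * t) := by
      unfold wt
      refine (Real.exp_le_exp.2 h2).trans (le_of_eq ?_)
      rw [Nat.cast_one, one_mul, Real.exp_add, Real.exp_log hXj, mul_assoc, ← Real.exp_add]
      congr 2
      ring
    have h4 := mul_le_mul_of_nonneg_left h3 (bump_nonneg j (L j) (X j) t)
    calc _ ≤ _ := h4
      _ = _ := by ring
  · simp [bump, if_neg ht]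

lemma FF_wt_int (hX : ∀ k, 64 ≤ X k) :
    IntegrableOn (fun t => FF L X t * wt L (fun k => Real.log (X k)) t) (Ioi 0) := by
  have hw : Measurable (wt L (fun k => Real.log (X k))) :=
    (pw_mono (logX_nonneg hX)).measurable.exp
  have hw0 : ∀ t, 0 ≤ wt L (fun k => Real.log (X k)) t := fun t => (Real.exp_pos _).le
  have e : (fun t => FF L X t * wt L (fun k => Real.log (X k)) t) =
      fun t => Real.exp (-t) * wt L (fun k => Real.log (X k)) t +
        ∑' j, bump j (L j) (X j) t * wt L (fun k => Real.log (X k)) t := by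
    funext t
    rw [FF, add_mul, tsum_mul_right]
  rw [e]
  have hb : ∀ j, IntegrableOn
      (fun t => bump j (L j) (X j) t * wt L (fun k => Real.log (X k)) t) (Ioi 0) ∧
      ∫ t in Ioi (0:ℝ), bump j (L j) (X j) t * wt L (fun k => Real.log (X k)) t ≤
        2 * (1 / 2) ^ (j + 2) := by
    intro j
    have hXj := hX j
    obtain ⟨i1, i2⟩ := bump_rint j (L j) (X j) (1 / 2) (by linarith)
    have i3 : IntegrableOn (fun t => X j * Real.exp (-(L j) / 2) *
        (bump j (L j) (X j) t * Real.exp ((1 / 2) * t))) (Ioi 0) := Integrable.const_mul i1 _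
    have i4 : IntegrableOn
        (fun t => bump j (L j) (X j) t * wt L (fun k => Real.log (X k)) t) (Ioi 0) := by
      refine Integrable.mono' i3 ((bump_meas j (L j) (X j)).mul hw).aestronglyMeasurable ?_
      refine Eventually.of_forall fun t => ?_
      rw [Real.norm_of_nonneg (mul_nonneg (bump_nonneg j (L j) (X j) t) (hw0 t))]
      exact bump_wt_le hX j t
    refine ⟨i4, ?_⟩
    refine (integral_mono i4 i3 fun t => bump_wt_le hX j t).trans ?_
    rw [integral_const_mul, i2]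
    have h5 : X j * Real.exp (-(L j) / 2) *
        ((1 / 2) ^ (j + 2) * Real.exp (1 / 2 * (L j)) / (X j - 1 / 2)) =
        (1 / 2) ^ (j + 2) * (X j / (X j - 1 / 2)) := by
      have h6 : Real.exp (-(L j) / 2) * Real.exp (1 / 2 * (L j)) = 1 := by
        have h60 : -(L j : ℝ) / 2 + 1 / 2 * (L j) = 0 := by ring
        rw [← Real.exp_add, h60, Real.exp_zero]
      calc _ = (Real.exp (-(L j) / 2) * Real.exp (1 / 2 * (L j))) *
            ((1 / 2) ^ (j + 2) * (X j / (X j - 1 / 2))) := by ring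
        _ = _ := by rw [h6, one_mul]
    rw [h5]
    have h7 : X j / (X j - 1 / 2) ≤ 2 := by
      rw [div_le_iff₀ (by linarith)]
      linarith
    have h8 : (0:ℝ) ≤ (1 / 2) ^ (j + 2) := by positivity
    nlinarith
  have h1 : IntegrableOn (fun t => Real.exp (-t) * wt L (fun k => Real.log (X k)) t) (Ioi 0) := by
    have i1 : IntegrableOn (fun t : ℝ => Real.exp (-(1/2) * t)) (Ioi 0) :=
      integrableOn_exp_mul_Ioi (by norm_num) 0
    refine Integrable.mono' i1
      ((by fun_prop : Measurable fun t : ℝ => Real.exp (-t)).mul hw).aestronglyMeasurable ?_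
    rw [ae_restrict_iff' measurableSet_Ioi]
    refine Eventually.of_forall fun t ht => ?_
    have ht' : (0:ℝ) < t := ht
    rw [Real.norm_of_nonneg (mul_nonneg (Real.exp_pos _).le (hw0 t))]
    have h2 := pw_le (logX_nonneg hX) (rep_half (L := L) (A := fun k => Real.log (X k)) ht'.le)
    unfold wt
    rw [← Real.exp_add]
    apply Real.exp_le_exp.2
    linarith
  refine Integrable.add h1 ?_
  refine integrable_tsum_nonneg (fun j => (hb j).1)
    (fun j t => mul_nonneg (bump_nonneg j (L j) (X j) t) (hw0 t))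
    (fun j => (bump_meas j (L j) (X j)).mul hw) ?_ ?_
  · refine Summable.of_nonneg_of_le (fun j => ?_) (fun j => (hb j).2)
      (hasSum_geo.summable.mul_left 2)
    exact integral_nonneg fun t => mul_nonneg (bump_nonneg j (L j) (X j) t) (hw0 t)
  · intro t
    exact (bump_summable hX t).mul_right _

lemma fun1_InL1 (hX : ∀ k, 64 ≤ X k) : InL1 (wt L (fun k => Real.log (X k))) (fun1 L X) := by
  refine ⟨(fun1_meas hX).aestronglyMeasurable, fun t ht => by simp [fun1, ht], ?_⟩
  refine (FF_wt_int (L := L) hX).congr_fun ?_ measurableSet_Ioi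
  intro t ht
  simp only
  rw [fun1_pos ht, Complex.norm_real, Real.norm_of_nonneg (FF_nonneg hX t)]

/-! ### The transform -/

lemma hat_close (hX : ∀ k, 64 ≤ X k) (z : ℂ) (hz : z.im ≤ 0) :
    ‖(1 + Complex.I * z) * hat (fun1 L X) z - 1‖ ≤ 1 / 2 := by
  set w : ℂ := -(Complex.I * z) with hw
  have hwre : w.re = z.im := by simp [hw]
  have hwre' : w.re ≤ 0 := by rw [hwre]; exact hz
  have e0 : (1 + Complex.I * z) = 1 - w := by rw [hw]; ring
  -- the transform as a series
  have i0 : IntegrableOn (fun t : ℝ => Complex.exp ((w - 1) * t)) (Ioi 0) :=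
    integrableOn_exp_mul_complex_Ioi (by simp; linarith) 0
  have v0 : ∫ t in Ioi (0:ℝ), Complex.exp ((w - 1) * t) = 1 / (1 - w) := by
    rw [integral_exp_mul_complex_Ioi (by simp; linarith)]
    simp only [Complex.ofReal_zero, mul_zero, Complex.exp_zero]
    rw [← neg_sub w 1, div_neg, neg_div]
  have hb : ∀ j, IntegrableOn (fun t : ℝ => (bump j (L j) (X j) t : ℂ) * Complex.exp (w * t))
      (Ioi 0) ∧ ∫ t in Ioi (0:ℝ), (bump j (L j) (X j) t : ℂ) * Complex.exp (w * t) =
        (1 / 2 : ℂ) ^ (j + 2) * Complex.exp (w * (L j)) / (X j - w) := by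
    intro j
    exact bump_cint j (L j) (X j) w (by linarith [hX j])
  have hn : ∀ j, ∫ t in Ioi (0:ℝ), ‖(bump j (L j) (X j) t : ℂ) * Complex.exp (w * t)‖ ≤
      (1 / 2) ^ (j + 2) := by
    intro j
    have hXj := hX j
    obtain ⟨i1, i2⟩ := bump_rint j (L j) (X j) 0 (by linarith)
    have i3 : ∀ t ∈ Ioi (0:ℝ), ‖(bump j (L j) (X j) t : ℂ) * Complex.exp (w * t)‖ ≤
        bump j (L j) (X j) t * Real.exp (0 * t) := by
      intro t ht
      have ht' : (0:ℝ) < t := ht
      rw [norm_mul, Complex.norm_real, Real.norm_of_nonneg (bump_nonneg _ _ _ _),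
        Complex.norm_exp]
      apply mul_le_mul_of_nonneg_left _ (bump_nonneg _ _ _ _)
      apply Real.exp_le_exp.2
      have : (w * (t:ℂ)).re = w.re * t := by simp
      rw [this]
      nlinarith
    refine (setIntegral_mono_on (hb j).1.norm i1 measurableSet_Ioi i3).trans ?_
    rw [i2, zero_mul, Real.exp_zero, mul_one, sub_zero]
    have h8 : (0:ℝ) ≤ (1 / 2) ^ (j + 2) := by positivity
    exact div_le_self h8 (by linarith)
  have hs : Summable fun j =>
      ∫ t in Ioi (0:ℝ), ‖(bump j (L j) (X j) t : ℂ) * Complex.exp (w * t)‖ :=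
    Summable.of_nonneg_of_le (fun j => integral_nonneg fun t => norm_nonneg _) hn
      hasSum_geo.summable
  have HS := hasSum_integral_of_summable_integral_norm (fun j => (hb j).1) hs
  have iS : IntegrableOn (fun t : ℝ =>
      ∑' j, (bump j (L j) (X j) t : ℂ) * Complex.exp (w * t)) (Ioi 0) := by
    have h1 : IntegrableOn (fun t => (∑' j, bump j (L j) (X j) t)) (Ioi 0) := by
      refine integrable_tsum_nonneg (fun j => ?_) (fun j t => bump_nonneg _ _ _ _)
        (fun j => bump_meas _ _ _) ?_ (bump_summable hX)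
      · have := (bump_rint j (L j) (X j) 0 (by linarith [hX j])).1
        simp only [zero_mul, Real.exp_zero, mul_one] at this
        exact this
      · refine Summable.of_nonneg_of_le (fun j => integral_nonneg fun t => bump_nonneg _ _ _ _)
          (fun j => ?_) hasSum_geo.summable
        have i2 := (bump_rint j (L j) (X j) 0 (by linarith [hX j])).2
        simp only [zero_mul, Real.exp_zero, mul_one, sub_zero] at i2
        rw [i2]
        exact div_le_self (by positivity) (by linarith [hX j])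
    have e1 : (fun t : ℝ => ∑' j, (bump j (L j) (X j) t : ℂ) * Complex.exp (w * t)) =
        fun t : ℝ => ((∑' j, bump j (L j) (X j) t : ℝ) : ℂ) * Complex.exp (w * t) := by
      funext t
      rw [tsum_mul_right, Complex.ofReal_tsum]
    rw [e1]
    refine Integrable.mono' h1 ?_ ?_
    · apply AEStronglyMeasurable.mul
      · exact Complex.continuous_ofReal.comp_aestronglyMeasurable h1.1
      · apply Continuous.aestronglyMeasurable
        fun_prop
    · rw [ae_restrict_iff' measurableSet_Ioi]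
      refine Eventually.of_forall fun t ht => ?_
      have ht' : (0:ℝ) < t := ht
      have h0 : 0 ≤ ∑' j, bump j (L j) (X j) t := tsum_nonneg fun j => bump_nonneg _ _ _ _
      rw [norm_mul, Complex.norm_real, Real.norm_of_nonneg h0, Complex.norm_exp]
      have : (w * (t:ℂ)).re = w.re * t := by simp
      rw [this]
      have h2 : Real.exp (w.re * t) ≤ 1 := Real.exp_le_one_iff.2 (by nlinarith)
      calc _ ≤ (∑' j, bump j (L j) (X j) t) * 1 := by gcongr
        _ = _ := mul_one _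
  have e2 : hat (fun1 L X) z = 1 / (1 - w) +
      ∑' j, (1 / 2 : ℂ) ^ (j + 2) * Complex.exp (w * (L j)) / (X j - w) := by
    have e3 : hat (fun1 L X) z = ∫ t in Ioi (0:ℝ), (Complex.exp ((w - 1) * t) +
        ∑' j, (bump j (L j) (X j) t : ℂ) * Complex.exp (w * t)) := by
      unfold hat
      apply setIntegral_congr_fun measurableSet_Ioi
      intro t ht
      simp only
      rw [fun1_pos ht, tsum_mul_right, ← Complex.ofReal_tsum]
      unfold FF
      rw [Complex.ofReal_add, add_mul, Complex.ofReal_exp]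
      have e4 : -(Complex.I * (t:ℂ) * z) = w * t := by rw [hw]; ring
      rw [e4, ← Complex.exp_add]
      congr 2
      push_cast
      ring
    rw [e3, integral_add i0 iS, v0, ← HS.tsum_eq]
    congr 1
    apply tsum_congr
    intro j
    exact (hb j).2
  have h1w : (1:ℂ) - w ≠ 0 := by
    intro h
    have := congrArg Complex.re h
    simp at this
    linarith
  rw [e0, e2, mul_add, mul_one_div_cancel h1w, add_sub_cancel_left, ← tsum_mul_left]
  refine tsum_of_norm_bounded hasSum_geo ?_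
  intro j
  have hXj := hX j
  have h3 : ‖(1:ℂ) - w‖ ≤ ‖(X j : ℂ) - w‖ := by
    apply le_of_sq_le_sq _ (norm_nonneg _) |>.trans le_rfl
    rw [Complex.sq_norm, Complex.sq_norm, Complex.normSq_apply, Complex.normSq_apply]
    simp
    nlinarith
  have h4 : 0 < ‖(X j : ℂ) - w‖ := lt_of_lt_of_le (norm_pos_iff.2 h1w) h3
  have h5 : ‖Complex.exp (w * (L j))‖ ≤ 1 := by
    rw [Complex.norm_exp]
    apply Real.exp_le_one_iff.2
    have : (w * ((L j : ℕ):ℂ)).re = w.re * (L j) := by simp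
    rw [this]
    have : (0:ℝ) ≤ L j := Nat.cast_nonneg _
    nlinarith
  have h6 : ‖(1 / 2 : ℂ) ^ (j + 2)‖ = (1 / 2) ^ (j + 2) := by
    rw [norm_pow]; norm_num
  rw [norm_mul, norm_div, norm_mul, h6, mul_div_assoc']
  rw [div_le_iff₀ h4]
  have h7 : (0:ℝ) ≤ (1 / 2) ^ (j + 2) := by positivity
  calc ‖(1:ℂ) - w‖ * ((1 / 2) ^ (j + 2) * ‖Complex.exp (w * (L j))‖)
      ≤ ‖(X j : ℂ) - w‖ * ((1 / 2) ^ (j + 2) * 1) := by gcongr
    _ = _ := by ring


lemma hat_ne (hX : ∀ k, 64 ≤ X k) (z : ℂ) (hz : z.im ≤ 0) : hat (fun1 L X) z ≠ 0 := by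
  intro h
  have := hat_close (L := L) hX z hz
  rw [h] at this
  norm_num at this

lemma log_tendsto : Tendsto (fun y : ℝ => (Real.log 2 + Real.log (1 - y)) / |y|) atBot (𝓝 0) := by
  have h1 : Tendsto (fun x : ℝ => (Real.log 2 + Real.log (1 + x)) / x) atTop (𝓝 0) := by
    have h2 : Tendsto (fun x : ℝ => Real.log 2 / x) atTop (𝓝 0) :=
      tendsto_const_nhds.div_atTop tendsto_id
    have h3 : Tendsto (fun x : ℝ => Real.log (1 + x) / x) atTop (𝓝 0) := by
      have h4 := (Real.tendsto_pow_log_div_mul_add_atTop 1 (-1) 1 one_ne_zero).comp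
        (tendsto_atTop_add_const_left atTop (1:ℝ) tendsto_id)
      refine h4.congr fun x => ?_
      simp
    have h5 := h2.add h3
    rw [add_zero] at h5
    refine h5.congr fun x => ?_
    rw [add_div]
  have h6 := h1.comp tendsto_neg_atBot_atTop
  refine Tendsto.congr' ?_ h6
  filter_upwards [eventually_le_atBot (0:ℝ)] with y hy
  simp only [Function.comp_apply]
  rw [abs_of_nonpos hy, sub_eq_add_neg]

lemma trans_cond (hX : ∀ k, 64 ≤ X k) : TransformConditions (fun1 L X) := by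
  refine ⟨fun z hz => hat_ne hX z hz, ?_⟩
  have h1 : Tendsto (fun y : ℝ => Real.log ‖hat (fun1 L X) (y * Complex.I)‖ / |y|) atBot
      (𝓝 0) := by
    refine squeeze_zero_norm' ?_ log_tendsto
    filter_upwards [eventually_lt_atBot (0:ℝ)] with y hy
    have hzim : ((y:ℂ) * Complex.I).im ≤ 0 := by simp; exact hy.le
    have h2 := hat_close (L := L) hX (y * Complex.I) hzim
    have h3 : (1 + Complex.I * (y * Complex.I)) = ((1 - y : ℝ) : ℂ) := by
      push_cast
      linear_combination (y:ℂ) * Complex.I_sq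
    rw [h3] at h2
    set H := hat (fun1 L X) (y * Complex.I) with hH
    have h4 : ‖((1 - y : ℝ) : ℂ) * H‖ = (1 - y) * ‖H‖ := by
      rw [norm_mul, Complex.norm_real, Real.norm_of_nonneg (by linarith)]
    have h5 : (1 - y) * ‖H‖ ≤ 2 := by
      rw [← h4]
      have := norm_sub_norm_le (((1 - y : ℝ) : ℂ) * H) 1
      rw [norm_one] at this
      linarith
    have h6 : 1 / 2 ≤ (1 - y) * ‖H‖ := by
      rw [← h4]
      have := norm_sub_norm_le 1 (((1 - y : ℝ) : ℂ) * H)
      rw [norm_one, norm_sub_rev] at this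
      linarith
    have h7 : 0 < ‖H‖ := norm_pos_iff.2 (hat_ne hX _ hzim)
    have h8 : Real.log ((1 - y) * ‖H‖) = Real.log (1 - y) + Real.log ‖H‖ :=
      Real.log_mul (by linarith) h7.ne'
    have h9 : Real.log ((1 - y) * ‖H‖) ≤ Real.log 2 := Real.log_le_log (by linarith) h5
    have h10 : -Real.log 2 ≤ Real.log ((1 - y) * ‖H‖) := by
      rw [← Real.log_inv]
      exact Real.log_le_log (by norm_num) (by rw [← one_div]; exact h6)
    have h11 : 0 ≤ Real.log (1 - y) := Real.log_nonneg (by linarith)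
    rw [Real.norm_eq_abs, abs_div, abs_abs]
    apply div_le_div_of_nonneg_right _ (abs_nonneg y)
    rw [abs_le]
    constructor
    · linarith
    · have := Real.log_nonneg (by norm_num : (1:ℝ) ≤ 2)
      linarith
  have h2 : Tendsto (fun y : ℝ => ((Real.log ‖hat (fun1 L X) (y * Complex.I)‖ / |y| : ℝ) : EReal))
      atBot (𝓝 ((0:ℝ) : EReal)) := (continuous_coe_real_ereal.tendsto 0).comp h1
  rw [h2.limsup_eq]
  rfl

lemma fpart_intble (hX : ∀ k, 64 ≤ X k) (k : ℕ) (c : ℝ) (hc : c ≤ 1 / 2) :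
    IntegrableOn (fun t => fpart L X k t * Real.exp (c * t)) (Ioi 0) := by
  have i0 : IntegrableOn (fun t : ℝ => Real.exp ((c - 1) * t)) (Ioi 0) :=
    integrableOn_exp_mul_Ioi (by linarith) 0
  have e : (fun t => fpart L X k t * Real.exp (c * t)) = fun t => Real.exp ((c - 1) * t) +
      ∑ j ∈ Finset.range k, bump j (L j) (X j) t * Real.exp (c * t) := by
    funext t
    unfold fpart
    rw [add_mul, Finset.sum_mul, ← Real.exp_add]
    congr 2
    ring
  have hb : ∀ j ∈ Finset.range k,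
      IntegrableOn (fun t => bump j (L j) (X j) t * Real.exp (c * t)) (Ioi 0) := fun j _ =>
    (bump_rint j (L j) (X j) c (by linarith [hX j])).1
  rw [e]
  exact Integrable.add i0 (integrable_finsetSum _ hb)

/-- `∫ f_k e^{c t}` for `c ≤ 1/2`. -/
lemma fpart_int (hX : ∀ k, 64 ≤ X k) (k : ℕ) (c : ℝ) (hc : c ≤ 1 / 2)
    (hcL : ∀ j < k, (L j : ℝ) * c ≤ Real.log (X j)) :
    ∫ t in Ioi (0:ℝ), fpart L X k t * Real.exp (c * t) ≤ 4 := by
  have i0 : IntegrableOn (fun t : ℝ => Real.exp ((c - 1) * t)) (Ioi 0) :=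
    integrableOn_exp_mul_Ioi (by linarith) 0
  have v0 : ∫ t in Ioi (0:ℝ), Real.exp ((c - 1) * t) = 1 / (1 - c) := by
    rw [integral_exp_mul_Ioi (by linarith)]
    simp only [mul_zero, Real.exp_zero]
    rw [← neg_sub c 1, div_neg, neg_div]
  have e : (fun t => fpart L X k t * Real.exp (c * t)) = fun t => Real.exp ((c - 1) * t) +
      ∑ j ∈ Finset.range k, bump j (L j) (X j) t * Real.exp (c * t) := by
    funext t
    unfold fpart
    rw [add_mul, Finset.sum_mul, ← Real.exp_add]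
    congr 2
    ring
  have hb : ∀ j ∈ Finset.range k,
      IntegrableOn (fun t => bump j (L j) (X j) t * Real.exp (c * t)) (Ioi 0) := fun j _ =>
    (bump_rint j (L j) (X j) c (by linarith [hX j])).1
  have iS : IntegrableOn (fun t =>
      ∑ j ∈ Finset.range k, bump j (L j) (X j) t * Real.exp (c * t)) (Ioi 0) :=
    integrable_finsetSum _ hb
  rw [e]
  rw [integral_add i0 iS, v0, integral_finsetSum _ hb]
  have h1 : 1 / (1 - c) ≤ 2 := by
    rw [div_le_iff₀ (by linarith)]; linarith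
  have h2 : ∑ j ∈ Finset.range k, ∫ t in Ioi (0:ℝ), bump j (L j) (X j) t * Real.exp (c * t) ≤
      ∑ j ∈ Finset.range k, 2 * (1 / 2 : ℝ) ^ (j + 2) := by
    apply Finset.sum_le_sum
    intro j hj
    have hXj := hX j
    rw [(bump_rint j (L j) (X j) c (by linarith [hX j])).2]
    have h3 : Real.exp (c * L j) ≤ X j := by
      rw [← Real.exp_log (by linarith : 0 < X j)]
      apply Real.exp_le_exp.2
      have := hcL j (Finset.mem_range.1 hj)
      linarith
    rw [div_le_iff₀ (by linarith)]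
    have h4 : (0:ℝ) ≤ (1 / 2) ^ (j + 2) := by positivity
    calc (1 / 2 : ℝ) ^ (j + 2) * Real.exp (c * L j) ≤ (1 / 2 : ℝ) ^ (j + 2) * X j := by gcongr
      _ ≤ (1 / 2 : ℝ) ^ (j + 2) * (2 * (X j - c)) := by gcongr; linarith
      _ = _ := by ring
  have h3 : ∑ j ∈ Finset.range k, 2 * (1 / 2 : ℝ) ^ (j + 2) ≤ 1 := by
    have h4 := (hasSum_geo.mul_left 2)
    have h5 := h4.summable.sum_le_tsum (Finset.range k) (fun j _ => by positivity)
    rw [h4.tsum_eq] at h5
    linarith
  linarith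

end func

/-! ### The function `g` -/

section gpart

variable {L : ℕ → ℕ} {X c η : ℕ → ℝ} {g : ℕ → ℝ → ℂ} {C : ℝ}

lemma cover_le (hc : ∀ k, 0 ≤ c k ∧ c k ≤ 1 / 2)
    (hcL : ∀ j k, j < k → (L j : ℝ) * c k ≤ Real.log (X j))
    (K : ℕ) (n : ℕ → ℕ) (r t : ℝ) (hr : 0 ≤ r)
    (ht : t ≤ ∑ j ∈ Finset.range K, (n j : ℝ) * L j + r) :
    c K * max t 0 ≤ ∑ j ∈ Finset.range K, (n j : ℝ) * Real.log (X j) + r / 2 := by
  have h0 : 0 ≤ ∑ j ∈ Finset.range K, (n j : ℝ) * L j := Finset.sum_nonneg fun j _ => by positivity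
  have h1 : max t 0 ≤ ∑ j ∈ Finset.range K, (n j : ℝ) * L j + r := max_le ht (by linarith)
  have h2 := mul_le_mul_of_nonneg_left h1 (hc K).1
  have h3 : c K * (∑ j ∈ Finset.range K, (n j : ℝ) * L j) ≤
      ∑ j ∈ Finset.range K, (n j : ℝ) * Real.log (X j) := by
    rw [Finset.mul_sum]
    apply Finset.sum_le_sum
    intro j hj
    have := mul_le_mul_of_nonneg_left (hcL j K (Finset.mem_range.1 hj)) (Nat.cast_nonneg (n j) : (0:ℝ) ≤ n j)
    calc _ = (n j : ℝ) * ((L j : ℝ) * c K) := by ring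
      _ ≤ _ := this
  have h4 : c K * r ≤ r / 2 := by
    have := mul_le_mul_of_nonneg_right (hc K).2 hr
    linarith
  linarith

lemma g_bound (hX : ∀ k, 64 ≤ X k) (hc : ∀ k, 0 ≤ c k ∧ c k ≤ 1 / 2)
    (hcL : ∀ j k, j < k → (L j : ℝ) * c k ≤ Real.log (X j)) (hη : ∀ k, 0 ≤ η k)
    (hgd : ∀ k τ, ‖g (k + 1) τ - g k τ‖ ≤ η k * Real.exp (c k * max τ 0))
    (hgn : ∀ k, 1 ≤ k → ∀ n : ℕ, 1 ≤ n → ∀ τ : ℝ,
      ‖g (k + 1) (n * L k + τ)‖ ≤ η k * X k ^ n * Real.exp (c k * max τ 0))
    (hg1 : ∀ τ, ‖g 1 τ‖ ≤ C * Real.exp (c 1 * max τ 0))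
    (K : ℕ) (hK : 1 ≤ K) : ∀ (n : ℕ → ℕ) (r t : ℝ), 0 ≤ r →
      t ≤ ∑ j ∈ Finset.range K, (n j : ℝ) * L j + r →
      ‖g K t‖ ≤ (C + ∑ m ∈ Finset.range K, η m) *
        Real.exp (∑ j ∈ Finset.range K, (n j : ℝ) * Real.log (X j) + r / 2) := by
  have hC : 0 ≤ C := by
    have h := (norm_nonneg _).trans (hg1 0)
    exact nonneg_of_mul_nonneg_left h (Real.exp_pos _)
  have hS : ∀ K, 0 ≤ ∑ m ∈ Finset.range K, η m := fun K => Finset.sum_nonneg fun m _ => hη m
  induction K, hK using Nat.le_induction with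
  | base =>
    intro n r t hr ht
    refine (hg1 t).trans ?_
    have h1 := cover_le hc hcL 1 n r t hr ht
    have := hS 1
    gcongr
    linarith
  | succ K hK ih =>
    intro n r t hr ht
    rw [Finset.sum_range_succ] at ht
    rw [Finset.sum_range_succ η]
    rcases Nat.eq_zero_or_pos (n K) with h0 | h0
    · rw [h0, Nat.cast_zero, zero_mul, add_zero] at ht
      have h1 := cover_le hc hcL K n r t hr ht
      have h2 := ih n r t hr ht
      have h3 : Real.exp (c K * max t 0) ≤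
          Real.exp (∑ j ∈ Finset.range K, (n j : ℝ) * Real.log (X j) + r / 2) :=
        Real.exp_le_exp.2 h1
      have h4 : ‖g (K + 1) t‖ ≤ ‖g K t‖ + ‖g (K + 1) t - g K t‖ := by
        have := norm_add_le (g K t) (g (K + 1) t - g K t)
        rwa [add_sub_cancel] at this
      have h5 := hgd K t
      have h6 := mul_le_mul_of_nonneg_left h3 (hη K)
      rw [Finset.sum_range_succ, h0, Nat.cast_zero, zero_mul, add_zero]
      calc _ ≤ _ := h4
        _ ≤ (C + ∑ m ∈ Finset.range K, η m) *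
              Real.exp (∑ j ∈ Finset.range K, (n j : ℝ) * Real.log (X j) + r / 2) +
            η K * Real.exp (∑ j ∈ Finset.range K, (n j : ℝ) * Real.log (X j) + r / 2) := by
            linarith
        _ = _ := by ring
    · have ht' : t - n K * L K ≤ ∑ j ∈ Finset.range K, (n j : ℝ) * L j + r := by linarith
      have h1 := cover_le hc hcL K n r _ hr ht'
      have h2 := hgn K hK (n K) h0 (t - n K * L K)
      rw [add_sub_cancel] at h2
      have hXK : 0 < X K := by linarith [hX K]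
      have h3 : X K ^ (n K) = Real.exp ((n K : ℝ) * Real.log (X K)) := by
        rw [Real.exp_nat_mul, Real.exp_log hXK]
      have h4 : X K ^ (n K) * Real.exp (c K * max (t - n K * L K) 0) ≤
          Real.exp (∑ j ∈ Finset.range (K + 1), (n j : ℝ) * Real.log (X j) + r / 2) := by
        rw [h3, ← Real.exp_add, Finset.sum_range_succ]
        apply Real.exp_le_exp.2
        linarith
      have h5 := mul_le_mul_of_nonneg_left h4 (hη K)
      have h6 := hS K
      calc _ ≤ _ := h2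
        _ = η K * (X K ^ (n K) * Real.exp (c K * max (t - n K * L K) 0)) := by ring
        _ ≤ _ := h5
        _ ≤ _ := by
          apply mul_le_mul_of_nonneg_right _ (Real.exp_pos _).le
          linarith

/-- The limit function. -/
noncomputable def gl (g : ℕ → ℝ → ℂ) (t : ℝ) : ℂ := g 0 t + ∑' m, (g (m + 1) t - g m t)

lemma diff_summable (hc : ∀ k, 0 ≤ c k ∧ c k ≤ 1 / 2) (hη : ∀ k, 0 ≤ η k) (hηs : Summable η)
    (hgd : ∀ k τ, ‖g (k + 1) τ - g k τ‖ ≤ η k * Real.exp (c k * max τ 0)) (t : ℝ) :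
    Summable fun m => g (m + 1) t - g m t := by
  refine Summable.of_norm_bounded (g := fun m => η m * Real.exp (1 / 2 * max t 0))
    (hηs.mul_right _) fun m => ?_
  refine (hgd m t).trans ?_
  apply mul_le_mul_of_nonneg_left _ (hη m)
  apply Real.exp_le_exp.2
  exact mul_le_mul_of_nonneg_right (hc m).2 (le_max_right _ _)

lemma gl_tendsto (hc : ∀ k, 0 ≤ c k ∧ c k ≤ 1 / 2) (hη : ∀ k, 0 ≤ η k) (hηs : Summable η)
    (hgd : ∀ k τ, ‖g (k + 1) τ - g k τ‖ ≤ η k * Real.exp (c k * max τ 0)) (t : ℝ) :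
    Tendsto (fun k => g k t) atTop (𝓝 (gl g t)) := by
  have h1 := ((diff_summable hc hη hηs hgd t).hasSum.tendsto_sum_nat).const_add (g 0 t)
  refine h1.congr fun k => ?_
  rw [Finset.sum_range_sub (fun m => g m t)]
  ring

lemma gl_sub (hc : ∀ k, 0 ≤ c k ∧ c k ≤ 1 / 2) (hη : ∀ k, 0 ≤ η k) (hηs : Summable η)
    (hgd : ∀ k τ, ‖g (k + 1) τ - g k τ‖ ≤ η k * Real.exp (c k * max τ 0)) (k : ℕ) (t : ℝ) :
    gl g t - g k t = ∑' m, (g (m + k + 1) t - g (m + k) t) := by
  have h1 := (diff_summable hc hη hηs hgd t).sum_add_tsum_nat_add k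
  have h2 : g 0 t + ∑ m ∈ Finset.range k, (g (m + 1) t - g m t) = g k t := by
    rw [Finset.sum_range_sub (fun m => g m t)]
    ring
  unfold gl
  rw [← h1, ← h2]
  ring


lemma gl_bound (hX : ∀ k, 64 ≤ X k) (hc : ∀ k, 0 ≤ c k ∧ c k ≤ 1 / 2)
    (hcL : ∀ j k, j < k → (L j : ℝ) * c k ≤ Real.log (X j)) (hη : ∀ k, 0 ≤ η k)
    (hηs : Summable η) (hη4 : ∑' k, η k ≤ 1 / 4)
    (hgd : ∀ k τ, ‖g (k + 1) τ - g k τ‖ ≤ η k * Real.exp (c k * max τ 0))
    (hgn : ∀ k, 1 ≤ k → ∀ n : ℕ, 1 ≤ n → ∀ τ : ℝ,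
      ‖g (k + 1) (n * L k + τ)‖ ≤ η k * X k ^ n * Real.exp (c k * max τ 0))
    (hg1 : ∀ τ, ‖g 1 τ‖ ≤ C * Real.exp (c 1 * max τ 0)) (t : ℝ) :
    ‖gl g t‖ ≤ (C + 1 / 4) * wt L (fun k => Real.log (X k)) t := by
  have hC : 0 ≤ C := by
    have h := (norm_nonneg _).trans (hg1 0)
    exact nonneg_of_mul_nonneg_left h (Real.exp_pos _)
  have h1 : ∀ s, Rep L (fun k => Real.log (X k)) t s → ‖gl g t‖ ≤ (C + 1 / 4) * Real.exp s := by
    rintro s ⟨K, n, r, hr, ht, rfl⟩
    have h2 : ∀ K' ≥ max K 1, ‖g K' t‖ ≤ (C + 1 / 4) *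
        Real.exp (∑ j ∈ Finset.range K, (n j : ℝ) * Real.log (X j) + r / 2) := by
      intro K' hK'
      have hK1 : K ≤ K' := (le_max_left _ _).trans hK'
      have hK2 : 1 ≤ K' := (le_max_right _ _).trans hK'
      have h3 := g_bound hX hc hcL hη hgd hgn hg1 K' hK2 (fun j => if j < K then n j else 0) r t hr
        (by rw [sum_ext hK1 n (fun j => (L j : ℝ))]; exact ht)
      rw [sum_ext hK1 n (fun j => Real.log (X j))] at h3
      refine h3.trans ?_
      have h4 : ∑ m ∈ Finset.range K', η m ≤ 1 / 4 :=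
        (hηs.sum_le_tsum _ fun m _ => hη m).trans hη4
      gcongr
    exact le_of_tendsto (gl_tendsto hc hη hηs hgd t).norm (eventually_atTop.2 ⟨max K 1, h2⟩)
  rcases (norm_nonneg (gl g t)).eq_or_lt with h0 | h0
  · rw [← h0]
    exact mul_nonneg (by linarith) (Real.exp_pos _).le
  · have hC4 : 0 < C + 1 / 4 := by linarith
    have h5 : 0 < ‖gl g t‖ / (C + 1 / 4) := div_pos h0 hC4
    have h6 : Real.log (‖gl g t‖ / (C + 1 / 4)) ≤ pw L (fun k => Real.log (X k)) t := by
      refine le_csInf (rep_ne t) fun s hs => ?_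
      rw [Real.log_le_iff_le_exp h5, div_le_iff₀ hC4]
      have := h1 s hs
      linarith
    have h7 : ‖gl g t‖ / (C + 1 / 4) ≤ wt L (fun k => Real.log (X k)) t := by
      unfold wt
      rw [← Real.exp_log h5]
      exact Real.exp_le_exp.2 h6
    rw [div_le_iff₀ hC4] at h7
    linarith

lemma term_int (hX : ∀ k, 64 ≤ X k) (hc : ∀ k, 0 ≤ c k ∧ c k ≤ 1 / 2)
    (hcL : ∀ j k, j < k → (L j : ℝ) * c k ≤ Real.log (X j)) (hη : ∀ k, 0 ≤ η k)
    (hgc : ∀ k, Continuous (g k))
    (hgd : ∀ k τ, ‖g (k + 1) τ - g k τ‖ ≤ η k * Real.exp (c k * max τ 0))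
    (k m : ℕ) (hkm : k ≤ m) (τ : ℝ) (hτ : 0 < τ) :
    IntegrableOn (fun t => (fpart L X k t : ℂ) * (g (m + 1) (t + τ) - g m (t + τ))) (Ioi 0) ∧
    ∫ t in Ioi (0:ℝ), ‖(fpart L X k t : ℂ) * (g (m + 1) (t + τ) - g m (t + τ))‖ ≤
      4 * Real.exp (τ / 2) * η m := by
  have i1 := fpart_intble (L := L) hX k (c m) (hc m).2
  have v1 := fpart_int (L := L) hX k (c m) (hc m).2 fun j hj => hcL j m (hj.trans_le hkm)
  have i2 : IntegrableOn (fun t => η m * Real.exp (c m * τ) *
      (fpart L X k t * Real.exp (c m * t))) (Ioi 0) := Integrable.const_mul i1 _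
  have hb : ∀ t ∈ Ioi (0:ℝ), ‖(fpart L X k t : ℂ) * (g (m + 1) (t + τ) - g m (t + τ))‖ ≤
      η m * Real.exp (c m * τ) * (fpart L X k t * Real.exp (c m * t)) := by
    intro t ht
    have ht' : (0:ℝ) < t := ht
    rw [norm_mul, Complex.norm_real, Real.norm_of_nonneg (fpart_nonneg k t)]
    have h1 := hgd m (t + τ)
    rw [max_eq_left (by linarith)] at h1
    have h2 : Real.exp (c m * (t + τ)) = Real.exp (c m * τ) * Real.exp (c m * t) := by
      rw [← Real.exp_add]; congr 1; ring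
    rw [h2] at h1
    calc _ ≤ fpart L X k t * (η m * (Real.exp (c m * τ) * Real.exp (c m * t))) :=
          mul_le_mul_of_nonneg_left h1 (fpart_nonneg k t)
      _ = _ := by ring
  have hm : AEStronglyMeasurable
      (fun t => (fpart L X k t : ℂ) * (g (m + 1) (t + τ) - g m (t + τ)))
      (volume.restrict (Ioi (0:ℝ))) := by
    apply AEStronglyMeasurable.mul
    · exact (Complex.measurable_ofReal.comp (fpart_meas k)).aestronglyMeasurable
    · apply Continuous.aestronglyMeasurable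
      have h1 := hgc (m + 1)
      have h2 := hgc m
      fun_prop
  have i3 : IntegrableOn (fun t => (fpart L X k t : ℂ) * (g (m + 1) (t + τ) - g m (t + τ)))
      (Ioi 0) := by
    refine Integrable.mono' i2 hm ?_
    rw [ae_restrict_iff' measurableSet_Ioi]
    exact Eventually.of_forall hb
  refine ⟨i3, ?_⟩
  refine (setIntegral_mono_on i3.norm i2 measurableSet_Ioi hb).trans ?_
  rw [integral_const_mul]
  have h3 : Real.exp (c m * τ) ≤ Real.exp (τ / 2) := by
    apply Real.exp_le_exp.2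
    have := mul_le_mul_of_nonneg_right (hc m).2 hτ.le
    linarith
  have h4 : 0 ≤ ∫ t in Ioi (0:ℝ), fpart L X k t * Real.exp (c m * t) :=
    integral_nonneg fun t => mul_nonneg (fpart_nonneg k t) (Real.exp_pos _).le
  have h5 := hη m
  calc _ ≤ η m * Real.exp (τ / 2) * 4 := by gcongr
    _ = _ := by ring

lemma orth_small (hX : ∀ k, 64 ≤ X k) (hc : ∀ k, 0 ≤ c k ∧ c k ≤ 1 / 2)
    (hcL : ∀ j k, j < k → (L j : ℝ) * c k ≤ Real.log (X j)) (hη : ∀ k, 0 ≤ η k)
    (hηs : Summable η) (hgc : ∀ k, Continuous (g k))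
    (hgd : ∀ k τ, ‖g (k + 1) τ - g k τ‖ ≤ η k * Real.exp (c k * max τ 0))
    (k : ℕ) (τ : ℝ) (hτ : 0 < τ) :
    ‖∫ t in Ioi (0:ℝ), (fpart L X k t : ℂ) * (gl g (t + τ) - g k (t + τ))‖ ≤
      4 * Real.exp (τ / 2) * ∑' m, η (m + k) := by
  have hi := fun m : ℕ => term_int hX hc hcL hη hgc hgd k (m + k) (Nat.le_add_left k m) τ hτ
  have hs : Summable fun m : ℕ => 4 * Real.exp (τ / 2) * η (m + k) :=
    ((summable_nat_add_iff k).2 hηs).mul_left _
  have HS := hasSum_integral_of_summable_integral_norm (fun m => (hi m).1)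
    (Summable.of_nonneg_of_le (fun m => integral_nonneg fun t => norm_nonneg _)
      (fun m => (hi m).2) hs)
  have e : ∀ t, ∑' m, (fpart L X k t : ℂ) * (g (m + k + 1) (t + τ) - g (m + k) (t + τ)) =
      (fpart L X k t : ℂ) * (gl g (t + τ) - g k (t + τ)) := by
    intro t
    rw [gl_sub hc hη hηs hgd, tsum_mul_left]
  simp_rw [e] at HS
  rw [← HS.tsum_eq, ← tsum_mul_left]
  refine tsum_of_norm_bounded hs.hasSum fun m => ?_
  exact (norm_integral_le_integral_norm _).trans (hi m).2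

lemma g_half (hX : ∀ k, 64 ≤ X k) (hc : ∀ k, 0 ≤ c k ∧ c k ≤ 1 / 2)
    (hcL : ∀ j k, j < k → (L j : ℝ) * c k ≤ Real.log (X j)) (hη : ∀ k, 0 ≤ η k)
    (hηs : Summable η) (hη4 : ∑' k, η k ≤ 1 / 4)
    (hgd : ∀ k τ, ‖g (k + 1) τ - g k τ‖ ≤ η k * Real.exp (c k * max τ 0))
    (hgn : ∀ k, 1 ≤ k → ∀ n : ℕ, 1 ≤ n → ∀ τ : ℝ,
      ‖g (k + 1) (n * L k + τ)‖ ≤ η k * X k ^ n * Real.exp (c k * max τ 0))
    (hg1 : ∀ τ, ‖g 1 τ‖ ≤ C * Real.exp (c 1 * max τ 0)) (K : ℕ) (hK : 1 ≤ K) (t : ℝ)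
    (ht : 0 ≤ t) : ‖g K t‖ ≤ (C + 1 / 4) * Real.exp (1 / 2 * t) := by
  have h3 := g_bound hX hc hcL hη hgd hgn hg1 K hK (fun _ => 0) t t ht (by simp)
  refine h3.trans ?_
  have h4 : ∑ m ∈ Finset.range K, η m ≤ 1 / 4 :=
    (hηs.sum_le_tsum _ fun m _ => hη m).trans hη4
  simp only [Nat.cast_zero, zero_mul, Finset.sum_const_zero, zero_add]
  have h5 : t / 2 = 1 / 2 * t := by ring
  rw [h5]
  apply mul_le_mul_of_nonneg_right _ (Real.exp_pos _).le
  linarith

end gpart

/-- **Piece W.** -/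
theorem piece : WStm := by
  rintro ⟨L, X, c, η, g, C, hL, hX, hc, hcL, hXL, hη, hηs, hη4, hgc, hg0, hgd, hgn, hg1, horth⟩
  have hC : 0 ≤ C := by
    have h := (norm_nonneg _).trans (hg1 0)
    exact nonneg_of_mul_nonneg_left h (Real.exp_pos _)
  have hA := logX_nonneg hX
  set φ := wt L (fun k => Real.log (X k)) with hφ
  have hW : IsWeight φ := wt_isWeight hL hA hXL
  have hφm : Measurable φ := hW.1
  have hφ0 : ∀ t, 0 ≤ φ t := fun t => (Real.exp_pos _).le
  have hgm : Measurable (gl g) := by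
    refine measurable_of_tendsto_metrizable (f := g) (fun k => (hgc k).measurable) ?_
    rw [tendsto_pi_nhds]
    exact gl_tendsto hc hη hηs hgd
  have hgb := gl_bound hX hc hcL hη hηs hη4 hgd hgn hg1
  refine ⟨φ, fun1 L X, hW, fun1_InL1 hX, trans_cond hX, ?_⟩
  intro hcomp
  have hLinf : InLinf φ (gl g) :=
    ⟨hgm.aestronglyMeasurable, C + 1 / 4, Eventually.of_forall hgb⟩
  have horth' : ∀ τ : ℝ, 0 < τ → ∫ t in Ioi (0:ℝ), fun1 L X t * gl g (t + τ) = 0 := by
    intro τ hτ
    have hgmτ : Measurable fun t => gl g (t + τ) := hgm.comp (measurable_id.add_const τ)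
    have e1 : ∫ t in Ioi (0:ℝ), fun1 L X t * gl g (t + τ) =
        ∫ t in Ioi (0:ℝ), (FF L X t : ℂ) * gl g (t + τ) := by
      apply setIntegral_congr_fun measurableSet_Ioi
      intro t ht
      simp only
      rw [fun1_pos ht]
    rw [e1]
    have hbd : ∀ k t, ‖(fpart L X k t : ℂ) * gl g (t + τ)‖ ≤
        (C + 1 / 4) * φ τ * (FF L X t * φ t) := by
      intro k t
      rw [norm_mul, Complex.norm_real, Real.norm_of_nonneg (fpart_nonneg k t)]
      have h1 := hgb (t + τ)
      have h2 : φ (t + τ) ≤ φ t * φ τ := hW.2.2.1 t τ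
      have h3 : ‖gl g (t + τ)‖ ≤ (C + 1 / 4) * (φ t * φ τ) :=
        h1.trans (mul_le_mul_of_nonneg_left h2 (by linarith))
      calc _ ≤ FF L X t * ((C + 1 / 4) * (φ t * φ τ)) :=
            mul_le_mul (fpart_le hX k t) h3 (norm_nonneg _) (FF_nonneg hX t)
        _ = _ := by ring
    have hbi : IntegrableOn (fun t => (C + 1 / 4) * φ τ * (FF L X t * φ t)) (Ioi 0) :=
      Integrable.const_mul (FF_wt_int hX) _
    have hmk : ∀ k, AEStronglyMeasurable (fun t => (fpart L X k t : ℂ) * gl g (t + τ))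
        (volume.restrict (Ioi (0:ℝ))) := fun k =>
      ((Complex.measurable_ofReal.comp (fpart_meas k)).mul hgmτ).aestronglyMeasurable
    have hlim : Tendsto (fun k => ∫ t in Ioi (0:ℝ), (fpart L X k t : ℂ) * gl g (t + τ)) atTop
        (𝓝 (∫ t in Ioi (0:ℝ), (FF L X t : ℂ) * gl g (t + τ))) := by
      refine tendsto_integral_of_dominated_convergence _ hmk hbi
        (fun k => Eventually.of_forall (hbd k)) (Eventually.of_forall fun t => ?_)
      exact ((Complex.continuous_ofReal.tendsto _).comp (fpart_tendsto hX t)).mul_const _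
    have hsm : ∀ k, 1 ≤ k → ‖∫ t in Ioi (0:ℝ), (fpart L X k t : ℂ) * gl g (t + τ)‖ ≤
        4 * Real.exp (τ / 2) * ∑' m, η (m + k) := by
      intro k hk
      have i1 : IntegrableOn (fun t => (fpart L X k t : ℂ) * gl g (t + τ)) (Ioi 0) :=
        Integrable.mono' hbi (hmk k) (Eventually.of_forall (hbd k))
      have i2 : IntegrableOn (fun t => (fpart L X k t : ℂ) * g k (t + τ)) (Ioi 0) := by
        have i3 : IntegrableOn (fun t => (C + 1 / 4) * Real.exp (1 / 2 * τ) *
            (fpart L X k t * Real.exp (1 / 2 * t))) (Ioi 0) :=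
          Integrable.const_mul (fpart_intble hX k (1 / 2) le_rfl) _
        refine Integrable.mono' i3 ?_ ?_
        · apply Measurable.aestronglyMeasurable
          exact (Complex.measurable_ofReal.comp (fpart_meas k)).mul
            ((hgc k).measurable.comp (measurable_id.add_const τ))
        · rw [ae_restrict_iff' measurableSet_Ioi]
          refine Eventually.of_forall fun t ht => ?_
          have ht' : (0:ℝ) < t := ht
          rw [norm_mul, Complex.norm_real, Real.norm_of_nonneg (fpart_nonneg k t)]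
          have h1 := g_half hX hc hcL hη hηs hη4 hgd hgn hg1 k hk (t + τ) (by linarith)
          have h2 : Real.exp (1 / 2 * (t + τ)) = Real.exp (1 / 2 * τ) * Real.exp (1 / 2 * t) := by
            rw [← Real.exp_add]; congr 1; ring
          rw [h2] at h1
          calc _ ≤ fpart L X k t * ((C + 1 / 4) * (Real.exp (1 / 2 * τ) * Real.exp (1 / 2 * t))) :=
                mul_le_mul_of_nonneg_left h1 (fpart_nonneg k t)
            _ = _ := by ring
      have h3 := orth_small hX hc hcL hη hηs hgc hgd k τ hτ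
      have h4 : ∫ t in Ioi (0:ℝ), (fpart L X k t : ℂ) * (gl g (t + τ) - g k (t + τ)) =
          ∫ t in Ioi (0:ℝ), (fpart L X k t : ℂ) * gl g (t + τ) := by
        simp_rw [mul_sub]
        rw [integral_sub i1 i2, horth k hk τ hτ, sub_zero]
      rw [h4] at h3
      exact h3
    have hz : Tendsto (fun k => ∫ t in Ioi (0:ℝ), (fpart L X k t : ℂ) * gl g (t + τ)) atTop
        (𝓝 0) := by
      have h5 : Tendsto (fun k => 4 * Real.exp (τ / 2) * ∑' m, η (m + k)) atTop (𝓝 0) := by
        have := (tendsto_sum_nat_add η).const_mul (4 * Real.exp (τ / 2))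
        rwa [mul_zero] at this
      refine squeeze_zero_norm' ?_ h5
      filter_upwards [eventually_ge_atTop 1] with k hk
      exact hsm k hk
    exact tendsto_nhds_unique hlim hz
  have hzero := hcomp (gl g) hLinf horth'
  rw [ae_restrict_iff' measurableSet_Ioi] at hzero
  have hne : ∀ t ∈ Ioo (0:ℝ) 1, gl g t ≠ 0 := by
    intro t ht h0
    have h1 : ‖gl g t - g 0 t‖ ≤ 1 / 4 * Real.exp 1 := by
      have h2 := gl_sub hc hη hηs hgd 0 t
      rw [h2]
      have h3 : ∀ m : ℕ, ‖g (m + 0 + 1) t - g (m + 0) t‖ ≤ η m * Real.exp 1 := by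
        intro m
        refine (hgd m t).trans ?_
        apply mul_le_mul_of_nonneg_left _ (hη m)
        apply Real.exp_le_exp.2
        rw [max_eq_left ht.1.le]
        have := hc m
        nlinarith [ht.1, ht.2]
      refine (tsum_of_norm_bounded (hηs.mul_right _).hasSum h3).trans ?_
      rw [tsum_mul_right]
      gcongr
    have h4 := hg0 t ht.1.le
    have h5 : ‖g 0 t‖ = ‖gl g t - g 0 t‖ := by
      rw [h0, zero_sub, norm_neg]
    have h6 := Real.exp_one_lt_d9
    rw [h5] at h4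
    linarith
  have h7 : volume (Ioo (0:ℝ) 1) = 0 := by
    refine measure_mono_null ?_ hzero
    intro t ht
    simp only [mem_compl_iff, mem_ofPred_eq]
    intro h8
    exact hne t ht (h8 ht.1)
  rw [Real.volume_Ioo] at h7
  simp at h7

end Pool.Agent.W2helper10.TR
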